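import Pool.Agent.helper34.MO.SpecD

set_option autoImplicit false

open Finset

namespace Pool.Agent.MO

theorem GGM_eq (m : ℕ) : gg m = 0.83 / Real.pi * (3 / Real.sqrt (100 + 1.053 * m) +
    2000 / (100 + 1.053 * (m : ℝ)) ^ 2 + 30 / (100 + 1.053 * (m : ℝ))) := by
  unfold gg
  have hu : (0 : ℝ) < 100 + 1.053 * m := by positivity
  congr 1
  rw [add_assoc]
  congr 1
  rw [div_add_div _ _ (by positivity) hu.ne', div_eq_div_iff (by positivity) (by positivity)]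
  ring

theorem GGM_anti (m m' : ℕ) (h : m ≤ m') : gg m' ≤ gg m := by
  rw [GGM_eq, GGM_eq]
  have hmm : (m : ℝ) ≤ m' := by exact_mod_cast h
  have hu : (0 : ℝ) < 100 + 1.053 * m := by positivity
  have huu : 100 + 1.053 * (m : ℝ) ≤ 100 + 1.053 * m' := by linarith
  have hpi := Real.pi_pos
  apply mul_le_mul_of_nonneg_left _ (by positivity)
  have h1 : 3 / Real.sqrt (100 + 1.053 * m') ≤ 3 / Real.sqrt (100 + 1.053 * m) :=
    div_le_div_of_nonneg_left (by norm_num) (Real.sqrt_pos.2 hu) (Real.sqrt_le_sqrt huu)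
  have h2 : 2000 / (100 + 1.053 * (m' : ℝ)) ^ 2 ≤ 2000 / (100 + 1.053 * (m : ℝ)) ^ 2 :=
    div_le_div_of_nonneg_left (by norm_num) (by positivity) (pow_le_pow_left₀ hu.le huu 2)
  have h3 : 30 / (100 + 1.053 * (m' : ℝ)) ≤ 30 / (100 + 1.053 * (m : ℝ)) :=
    div_le_div_of_nonneg_left (by norm_num) hu huu
  linarith

theorem GGM : GGM_stmt := by
  have hpi := Real.pi_pos
  refine ⟨?_, GGM_anti, ?_, ?_⟩
  · intro m
    rw [GGM_eq]
    have hu : (0 : ℝ) < 100 + 1.053 * m := by positivity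
    have := Real.sqrt_pos.2 hu
    positivity
  · have hs : Real.sqrt (100 + 1.053 * (12 : ℕ)) ≤ 10.6131 := by
      rw [Real.sqrt_le_left (by norm_num)]
      norm_num
    have hs0 : 0 < Real.sqrt (100 + 1.053 * (12 : ℕ)) := Real.sqrt_pos.2 (by norm_num)
    have h1 : (0.282 : ℝ) ≤ 3 / Real.sqrt (100 + 1.053 * (12 : ℕ)) := by
      rw [le_div_iff₀ hs0]
      linarith
    have h2 : (0.423 : ℝ) ≤ 2000 / (100 + 1.053 * ((12 : ℕ) : ℝ)) ^ 2 + 30 / (100 + 1.053 * ((12 : ℕ) : ℝ)) := by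
      norm_num
    rw [GGM_eq]
    have h3 : (0.705 : ℝ) ≤ 3 / Real.sqrt (100 + 1.053 * (12 : ℕ)) +
      2000 / (100 + 1.053 * ((12 : ℕ) : ℝ)) ^ 2 + 30 / (100 + 1.053 * ((12 : ℕ) : ℝ)) := by linarith
    have h4 : 0.83 / Real.pi * 0.705 ≤ 0.83 / Real.pi * (3 / Real.sqrt (100 + 1.053 * (12 : ℕ)) +
      2000 / (100 + 1.053 * ((12 : ℕ) : ℝ)) ^ 2 + 30 / (100 + 1.053 * ((12 : ℕ) : ℝ))) :=
      mul_le_mul_of_nonneg_left h3 (by positivity)
    have h5 : (0.034 : ℝ) ≤ 0.83 / Real.pi * 0.705 - (1 - 8 / (3 * Real.pi)) := by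
      have h6 : 0.83 / Real.pi * 0.705 - (1 - 8 / (3 * Real.pi)) = (0.83 * 0.705 + 8 / 3) / Real.pi - 1 := by
        field_simp
        ring
      rw [h6]
      have h7 : (1.034 : ℝ) ≤ (0.83 * 0.705 + 8 / 3) / Real.pi := by
        rw [le_div_iff₀ hpi]
        have := Real.pi_lt_d2
        nlinarith [Real.pi_lt_d4]
      linarith
    linarith
  · rw [sub_nonneg, div_le_one (by positivity)]
    have := Real.pi_gt_three
    linarith

end Pool.Agent.MO
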