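import Pool.Agent.helper34.MO.SpecD

set_option autoImplicit false

open Finset

namespace Pool.Agent.MO

theorem TW4_ls (τ : Tr) : τ.ls ≤ τ.sz := by
  induction τ with
  | e => exact le_rfl
  | nd l r hl _ =>
    simp only [Tr.ls, Tr.sz]
    omega

theorem TW4_rs (τ : Tr) : τ.rs ≤ τ.sz := by
  induction τ with
  | e => exact le_rfl
  | nd l r _ hr =>
    simp only [Tr.rs, Tr.sz]
    omega

theorem TW4_lr (l r : Tr) : (Tr.nd l r).ls + (Tr.nd l r).rs ≤ (Tr.nd l r).sz + 1 := by
  have h1 := TW4_ls l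
  have h2 := TW4_rs r
  simp only [Tr.ls, Tr.rs, Tr.sz]
  omega

theorem TW4 : TW4_stmt := by
  intro τ
  induction τ with
  | e => intro h; exact absurd h (by simp [Tr.sz])
  | nd l r hl hr =>
    intro _
    have e0 : w4 (Tr.nd l r) = w4 l + w4 r + 4 * (l.rs + 1) * (r.ls + 1) +
        8 * ((if l = .e then 0 else 1) + (if r = .e then 0 else 1)) + 4 * (l.ls + 1 + (r.rs + 1)) + 2 := rfl
    have e1 : (Tr.nd l r).sz = l.sz + r.sz + 1 := rfl
    rw [e0, e1]
    rcases l with _ | ⟨l1, l2⟩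
    · rcases r with _ | ⟨r1, r2⟩
      · simp [w4, Tr.sz, Tr.ls, Tr.rs]
      · have h1 := hr (by simp [Tr.sz])
        have h2 := TW4_lr r1 r2
        rw [if_pos rfl, if_neg (by simp)]
        have h3 : ((Tr.nd r1 r2).ls : ℤ) + (Tr.nd r1 r2).rs ≤ (Tr.nd r1 r2).sz + 1 := by exact_mod_cast h2
        have h4 : w4 Tr.e = 2 := rfl
        have h5 : Tr.e.rs = 0 := rfl
        have h6 : Tr.e.ls = 0 := rfl
        have h7 : Tr.e.sz = 0 := rfl
        rw [h4, h5, h6, h7]
        push_cast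
        nlinarith
    · rcases r with _ | ⟨r1, r2⟩
      · have h1 := hl (by simp [Tr.sz])
        have h2 := TW4_lr l1 l2
        rw [if_pos rfl, if_neg (by simp)]
        have h3 : ((Tr.nd l1 l2).ls : ℤ) + (Tr.nd l1 l2).rs ≤ (Tr.nd l1 l2).sz + 1 := by exact_mod_cast h2
        have h4 : w4 Tr.e = 2 := rfl
        have h5 : Tr.e.rs = 0 := rfl
        have h6 : Tr.e.ls = 0 := rfl
        have h7 : Tr.e.sz = 0 := rfl
        rw [h4, h5, h6, h7]
        push_cast
        nlinarith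
      · have h1 := hl (by simp [Tr.sz])
        have h1' := hr (by simp [Tr.sz])
        have h2 : ((Tr.nd l1 l2).ls : ℤ) + (Tr.nd l1 l2).rs ≤ (Tr.nd l1 l2).sz + 1 := by
          exact_mod_cast TW4_lr l1 l2
        have h3 : ((Tr.nd r1 r2).ls : ℤ) + (Tr.nd r1 r2).rs ≤ (Tr.nd r1 r2).sz + 1 := by
          exact_mod_cast TW4_lr r1 r2
        have h4 : ((Tr.nd l1 l2).rs : ℤ) ≤ (Tr.nd l1 l2).sz := by exact_mod_cast TW4_rs _
        have h5 : ((Tr.nd r1 r2).ls : ℤ) ≤ (Tr.nd r1 r2).sz := by exact_mod_cast TW4_ls _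
        rw [if_neg (by simp), if_neg (by simp)]
        generalize (Tr.nd l1 l2).rs = x at *
        generalize (Tr.nd l1 l2).ls = x' at *
        generalize (Tr.nd l1 l2).sz = a at *
        generalize (Tr.nd r1 r2).rs = y' at *
        generalize (Tr.nd r1 r2).ls = y at *
        generalize (Tr.nd r1 r2).sz = b at *
        have h6 : (x : ℤ) * y ≤ a * b := mul_le_mul h4 h5 (by positivity) (by positivity)
        push_cast
        nlinarith

end Pool.Agent.MO
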